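import Pool.Agent.Helper2.HY.Defs
import Pool.Agent.Helper2.HY.DefN
import Pool.Agent.Helper21.HY.Ind

/-!
Project HY (MP_b8862a_ag), block 7: the inequalities for surfaces of degree `d ≥ 10 ^ 28`.

With `t = d - 1` the primitive Betti number is `t (t ^ 2 - t + 1)`, the geometric genus is `t (t - 1) (t - 2) / 6`, and the greatest
common divisor of the two (times eight) is at most `3 t`.
-/

set_option autoImplicit false

open Finset

namespace MH.HY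

private theorem prm_two99 (f : ℕ) : prm 2 (f + 3) = (f + 2) * (f ^ 2 + 3 * f + 3) := by
  have h := prm_eq (N := 2) (d := f + 3) ⟨1, rfl⟩ (by omega)
  have h1 : f + 3 - 1 = f + 2 := by omega
  rw [h1] at h
  have h2 : 0 < f + 3 := by omega
  refine Nat.eq_of_mul_eq_mul_right h2 ?_
  rw [h]
  ring

private theorem hyp_two99 (f : ℕ) : 6 * hyp 2 (f + 3) 2 = (f + 2) * ((f + 1) * f) := by
  have h := hyp_symm 2 (f + 3) 0
  have h1 : hyp 2 (f + 3) 2 = hyp 2 (f + 3) 0 := by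
    have e : (((2 : ℕ) : ℤ) - 0) = 2 := by norm_num
    rw [e] at h
    exact h
  rw [h1]
  have h2 := hyp_zero 2 (f + 2)
  rw [h2]
  have h3 := Nat.descFactorial_eq_factorial_mul_choose (f + 2) 3
  have h4 : (f + 2).descFactorial 3 = (f + 2) * ((f + 1) * f) := by
    rw [Nat.descFactorial_succ, Nat.descFactorial_succ, Nat.descFactorial_succ, Nat.descFactorial_zero]
    have e1 : f + 2 - 2 = f := by omega
    have e2 : f + 2 - 1 = f + 1 := by omega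
    have e3 : f + 2 - 0 = f + 2 := by omega
    rw [e1, e2, e3]
    ring
  rw [h4] at h3
  rw [h3]
  rfl

private theorem gcd_two99 (f : ℕ) : Nat.gcd (prm 2 (f + 3)) (8 * hyp 2 (f + 3) 2) ≤ 3 * (f + 2) := by
  have hp := prm_two99 f
  have hh := hyp_two99 f
  obtain ⟨s, hs⟩ : ∃ s, s = hyp 2 (f + 3) 2 := ⟨_, rfl⟩
  rw [← hs] at hh ⊢
  rw [hp]
  have h1 : Nat.gcd ((f + 2) * (f ^ 2 + 3 * f + 3)) (8 * s) ∣
      Nat.gcd ((f + 2) * (f ^ 2 + 3 * f + 3)) ((f + 2) * (4 * (f + 1) * f)) := by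
    refine Nat.dvd_gcd (Nat.gcd_dvd_left _ _) ((Nat.gcd_dvd_right _ _).trans ⟨3, ?_⟩)
    calc (f + 2) * (4 * (f + 1) * f) = 4 * ((f + 2) * ((f + 1) * f)) := by ring
      _ = 4 * (6 * s) := by rw [hh]
      _ = 8 * s * 3 := by ring
  rw [Nat.gcd_mul_left] at h1
  have h2 : Nat.gcd (f ^ 2 + 3 * f + 3) (4 * (f + 1) * f) ∣ 3 := by
    obtain ⟨h, hh'⟩ : ∃ h, h = Nat.gcd (f ^ 2 + 3 * f + 3) (4 * (f + 1) * f) := ⟨_, rfl⟩
    rw [← hh']
    have d1 : h ∣ f ^ 2 + 3 * f + 3 := by rw [hh']; exact Nat.gcd_dvd_left _ _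
    have d2 : h ∣ 4 * (f + 1) * f := by rw [hh']; exact Nat.gcd_dvd_right _ _
    have c1 : Nat.Coprime (f ^ 2 + 3 * f + 3) (f + 1) := by
      rw [← Nat.isCoprime_iff_coprime]
      refine ⟨1, -((f : ℤ) + 2), ?_⟩
      push_cast
      ring
    have c2 : Nat.Coprime (f ^ 2 + 3 * f + 3) 4 := by
      have h5 : Odd (f ^ 2 + 3 * f + 3) := by
        rcases Nat.even_or_odd' f with ⟨k, rfl | rfl⟩
        · exact ⟨2 * k ^ 2 + 3 * k + 1, by ring⟩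
        · exact ⟨2 * k ^ 2 + 5 * k + 3, by ring⟩
      have h6 : Nat.Coprime (f ^ 2 + 3 * f + 3) (2 ^ 2) :=
        Nat.Coprime.pow_right 2 (Nat.coprime_two_right.2 h5)
      exact h6
    have c3 : Nat.Coprime h (4 * (f + 1)) := Nat.Coprime.coprime_dvd_left d1 (Nat.Coprime.mul_right c2 c1)
    have d3 : h ∣ f := c3.dvd_of_dvd_mul_left d2
    have d4 : h ∣ f ^ 2 + 3 * f := by
      have : f ^ 2 + 3 * f = f * (f + 3) := by ring
      rw [this]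
      exact d3.mul_right _
    exact (Nat.dvd_add_right d4).1 d1
  have h3 : Nat.gcd ((f + 2) * (f ^ 2 + 3 * f + 3)) (8 * s) ∣ (f + 2) * 3 := h1.trans (Nat.mul_dvd_mul_left _ h2)
  have h4 := Nat.le_of_dvd (by omega) h3
  omega

/-- the cube of the binary logarithm -/
private theorem Lg_cube99 {n t : ℕ} (hn : n ≠ 0) (h : n ≤ t ^ 3) : TF.Lg n ^ 3 ≤ 729 * t := by
  unfold TF.Lg
  obtain ⟨a, ha⟩ : ∃ a, a = Nat.log 2 n := ⟨_, rfl⟩
  have h1 : 2 ^ a ≤ n := by rw [ha]; exact Nat.pow_log_le_self 2 hn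
  rw [← ha]
  obtain ⟨q, hq⟩ : ∃ q, q = a / 9 := ⟨_, rfl⟩
  have h2 : a + 1 ≤ 9 * (q + 1) := by omega
  have h3 : 9 * q ≤ a := by omega
  have h4 : ((q + 1) ^ 3) ^ 3 ≤ t ^ 3 := by
    calc ((q + 1) ^ 3) ^ 3 = (q + 1) ^ 9 := by ring
      _ ≤ (2 ^ q) ^ 9 := Nat.pow_le_pow_left (Nat.lt_two_pow_self) 9
      _ = 2 ^ (9 * q) := by rw [← pow_mul, mul_comm]
      _ ≤ 2 ^ a := Nat.pow_le_pow_right (by norm_num) h3
      _ ≤ n := h1
      _ ≤ t ^ 3 := h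
  have h5 : (q + 1) ^ 3 ≤ t := le_of_pow_le_pow_left₀ (by norm_num) (Nat.zero_le _) h4
  calc (a + 1) ^ 3 ≤ (9 * (q + 1)) ^ 3 := Nat.pow_le_pow_left h2 3
    _ = 729 * (q + 1) ^ 3 := by ring
    _ ≤ 729 * t := Nat.mul_le_mul_left _ h5

theorem surf_hyp' {d : ℕ} (hd : 10 ^ 28 ≤ d) :
    1000 * prm 2 d ^ 2 * TF.Lg (prm 2 d) ^ 3 * Nat.gcd (prm 2 d) (8 * hyp 2 d 2) < hyp 2 d 2 ^ 3 ∧
      24 * (10 ^ 27) ^ 2 * Nat.gcd (prm 2 d) (8 * hyp 2 d 2) < prm 2 d ∧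
      5 * hyp 2 d 2 < prm 2 d := by
  obtain ⟨f, rfl⟩ : ∃ f, d = f + 3 := ⟨d - 3, by omega⟩
  have hf : 10 ^ 28 ≤ f + 3 := hd
  have hp := prm_two99 f
  have hh := hyp_two99 f
  have hg := gcd_two99 f
  obtain ⟨g, hg'⟩ : ∃ g, g = Nat.gcd (prm 2 (f + 3)) (8 * hyp 2 (f + 3) 2) := ⟨_, rfl⟩
  rw [← hg'] at hg ⊢
  obtain ⟨s, hs⟩ : ∃ s, s = hyp 2 (f + 3) 2 := ⟨_, rfl⟩
  rw [← hs] at hh ⊢
  have hn0 : prm 2 (f + 3) ≠ 0 := by rw [hp]; positivity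
  have hL := Lg_cube99 (n := prm 2 (f + 3)) (t := f + 2) hn0 (by rw [hp]; nlinarith)
  rw [hp] at hL ⊢
  obtain ⟨L, hL'⟩ : ∃ L, L = TF.Lg ((f + 2) * (f ^ 2 + 3 * f + 3)) ^ 3 := ⟨_, rfl⟩
  rw [← hL'] at hL ⊢
  have hf9 : 10 ^ 27 ≤ f := by omega
  refine ⟨?_, ?_, ?_⟩
  · -- `216 s ^ 3` is larger
    have h1 : (6 * s) ^ 3 = ((f + 2) * ((f + 1) * f)) ^ 3 := by rw [hh]
    have h2 : 216 * (1000 * ((f + 2) * (f ^ 2 + 3 * f + 3)) ^ 2 * L * g) < 216 * s ^ 3 := by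
      have e1 : 216 * s ^ 3 = ((f + 2) * ((f + 1) * f)) ^ 3 := by rw [← h1]; ring
      rw [e1]
      -- crude bounds
      have b1 : f ^ 2 + 3 * f + 3 ≤ 2 * f ^ 2 := by nlinarith
      have b2 : f + 2 ≤ 2 * f := by omega
      have b3 : L ≤ 1458 * f := by omega
      have b4 : g ≤ 6 * f := by omega
      have b5 : 216 * (1000 * ((f + 2) * (f ^ 2 + 3 * f + 3)) ^ 2 * L * g) ≤
          216 * (1000 * ((2 * f) * (2 * f ^ 2)) ^ 2 * (1458 * f) * (6 * f)) := by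
        gcongr
      have b6 : f ^ 9 ≤ ((f + 2) * ((f + 1) * f)) ^ 3 := by
        calc f ^ 9 = (f * (f * f)) ^ 3 := by ring
          _ ≤ ((f + 2) * ((f + 1) * f)) ^ 3 := by
            gcongr <;> omega
      have b7 : 216 * (1000 * ((2 * f) * (2 * f ^ 2)) ^ 2 * (1458 * f) * (6 * f)) = 30233088000 * f ^ 8 := by ring
      have b8 : 30233088000 * f ^ 8 < f ^ 9 := by
        have : f ^ 9 = f * f ^ 8 := by ring
        rw [this]
        have h8 : 0 < f ^ 8 := by positivity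
        exact Nat.mul_lt_mul_of_pos_right (by omega) h8
      omega
    exact Nat.lt_of_mul_lt_mul_left h2
  · have h1 : 24 * (10 ^ 27) ^ 2 * g ≤ 24 * (10 ^ 27) ^ 2 * (3 * (f + 2)) := Nat.mul_le_mul_left _ hg
    refine h1.trans_lt ?_
    have h2 : 24 * (10 ^ 27) ^ 2 * (3 * (f + 2)) = (f + 2) * (72 * (10 ^ 27) ^ 2) := by ring
    rw [h2]
    refine Nat.mul_lt_mul_of_pos_left ?_ (by omega)
    nlinarith
  · have h1 : 6 * (5 * s) < 6 * ((f + 2) * (f ^ 2 + 3 * f + 3)) := by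
      have : 6 * (5 * s) = 5 * ((f + 2) * ((f + 1) * f)) := by rw [← hh]; ring
      rw [this]
      nlinarith
    exact Nat.lt_of_mul_lt_mul_left h1

end MH.HY
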